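import Mathlib
import Pool.Agent.Helper39.Cp.W1

/-!
A coherent sequence of finite-to-one functions on the countable ordinals.
-/

set_option autoImplicit false

open Set

namespace Pool.Agent.Helper42.Cp

open Pool.Agent.Helper39.Cp

/-- `f` is a good choice for the function with index `β`, when the previous functions are `p`. -/
def GoodExt (β : W1) (p : W1 → W1 → ℕ) (f : W1 → ℕ) : Prop :=
  (∀ k, {j | j < β ∧ f j ≤ k}.Finite) ∧ ∀ α < β, {j | j < α ∧ p α j ≠ f j}.Finite

/-- A bounded enumeration of the predecessors. -/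
lemma exists_enum (β : W1) (hβ : (Iio β).Nonempty) :
    ∃ b : ℕ → W1, Monotone b ∧ (∀ n, b n < β) ∧ ∀ j < β, ∃ n, j ≤ b n := by
  obtain ⟨a, ha⟩ := (countable_Iio β).exists_eq_range hβ
  refine ⟨fun n => (Finset.range (n + 1)).sup' ⟨0, by simp⟩ a, ?_, ?_, ?_⟩
  · intro m n hmn
    exact Finset.sup'_mono a (Finset.range_subset_range.2 (by omega)) _
  · intro n
    rw [Finset.sup'_lt_iff]
    intro i _
    have : a i ∈ Iio β := by rw [ha]; exact mem_range_self i
    exact this
  · intro j hj
    have : j ∈ range a := by rw [← ha]; exact hj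
    obtain ⟨n, rfl⟩ := this
    exact ⟨n, Finset.le_sup' a (by simp)⟩

lemma exists_goodExt (β : W1) (p : W1 → W1 → ℕ)
    (h1 : ∀ α < β, ∀ k, {j | j < α ∧ p α j ≤ k}.Finite)
    (h2 : ∀ α < β, ∀ α' < β, {j | j < α ∧ j < α' ∧ p α j ≠ p α' j}.Finite) :
    ∃ f, GoodExt β p f := by
  classical
  rcases (Iio β).eq_empty_or_nonempty with hβ | hβ
  · refine ⟨fun _ => 0, fun k => ?_, fun α hα => ?_⟩
    · refine finite_empty.subset fun j hj => ?_
      have : j ∈ Iio β := hj.1
      rwa [hβ] at this
    · exact absurd (show α ∈ Iio β from hα) (by rw [hβ]; simp)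
  obtain ⟨b, hb, hbβ, hcof⟩ := exists_enum β hβ
  let N : W1 → ℕ := fun j => if h : ∃ n, j ≤ b n then Nat.find h else 0
  have hN : ∀ j < β, j ≤ b (N j) := by
    intro j hj
    have h := hcof j hj
    simp only [N, dif_pos h]
    exact Nat.find_spec h
  have hNmin : ∀ j n, j ≤ b n → N j ≤ n := by
    intro j n hj
    have h : ∃ n, j ≤ b n := ⟨n, hj⟩
    simp only [N, dif_pos h]
    exact Nat.find_min' h hj
  refine ⟨fun j => max (p (b (N j)) j) (N j), fun k => ?_, fun α hα => ?_⟩
  · have hfin : (⋃ n ∈ Finset.range (k + 1), ({j | j < b n ∧ p (b n) j ≤ k} ∪ {b n})).Finite := by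
      apply Set.Finite.biUnion (Finset.finite_toSet _)
      intro n _
      exact (h1 (b n) (hbβ n) k).union (finite_singleton _)
    refine hfin.subset fun j hj => ?_
    obtain ⟨hjβ, hj2⟩ := hj
    rw [max_le_iff] at hj2
    simp only [mem_iUnion, Finset.mem_range]
    refine ⟨N j, by omega, ?_⟩
    rcases lt_or_eq_of_le (hN j hjβ) with h | h
    · exact Or.inl ⟨h, hj2.1⟩
    · exact Or.inr h
  · obtain ⟨M, hM⟩ := hcof α hα
    have hfin : (⋃ n ∈ Finset.range (M + 1), (({j | j < b n ∧ p (b n) j ≤ n} ∪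
        {j | j < α ∧ j < b n ∧ p α j ≠ p (b n) j}) ∪ {b n})).Finite := by
      apply Set.Finite.biUnion (Finset.finite_toSet _)
      intro n _
      exact ((h1 (b n) (hbβ n) n).union (h2 α hα (b n) (hbβ n))).union (finite_singleton _)
    refine hfin.subset fun j hj => ?_
    obtain ⟨hjα, hj2⟩ := hj
    simp only [mem_iUnion, Finset.mem_range]
    have hjβ := hjα.trans hα
    refine ⟨N j, ?_, ?_⟩
    · have := hNmin j M (hjα.le.trans hM)
      omega
    rcases lt_or_eq_of_le (hN j hjβ) with h | h
    · refine Or.inl ?_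
      by_cases h3 : p (b (N j)) j ≤ N j
      · exact Or.inl ⟨h, h3⟩
      · refine Or.inr ⟨hjα, h, ?_⟩
        intro h4
        apply hj2
        show p α j = max (p (b (N j)) j) (N j)
        rw [h4, max_eq_left (by omega)]
    · exact Or.inr h

open Classical in
/-- The recursive definition. -/
noncomputable def coh : W1 → W1 → ℕ :=
  (wellFounded_lt (α := W1)).fix fun β p =>
    if h : ∃ f, GoodExt β (fun α => if hα : α < β then p α hα else fun _ => 0) f then h.choose
    else fun _ => 0

lemma coh_eq (β : W1) : coh β =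
    open Classical in
    if h : ∃ f, GoodExt β (fun α => if _ : α < β then coh α else fun _ => 0) f then h.choose
    else fun _ => 0 := by
  unfold coh
  rw [WellFounded.fix_eq]

lemma goodExt_congr {β : W1} {p p' : W1 → W1 → ℕ} (h : ∀ α < β, p α = p' α) {f : W1 → ℕ} :
    GoodExt β p f ↔ GoodExt β p' f := by
  unfold GoodExt
  constructor
  · rintro ⟨h1, h2⟩
    exact ⟨h1, fun α hα => by rw [← h α hα]; exact h2 α hα⟩
  · rintro ⟨h1, h2⟩
    exact ⟨h1, fun α hα => by rw [h α hα]; exact h2 α hα⟩

theorem coh_good (β : W1) : GoodExt β coh (coh β) := by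
  induction β using WellFoundedLT.induction with
  | ind β ih =>
    have h1 : ∀ α < β, ∀ k, {j | j < α ∧ coh α j ≤ k}.Finite := fun α hα => (ih α hα).1
    have h2 : ∀ α < β, ∀ α' < β, {j | j < α ∧ j < α' ∧ coh α j ≠ coh α' j}.Finite := by
      intro α hα α' hα'
      rcases lt_trichotomy α α' with h | h | h
      · exact ((ih α' hα').2 α h).subset fun j hj => ⟨hj.1, hj.2.2⟩
      · subst h
        refine finite_empty.subset fun j hj => absurd rfl hj.2.2
      · exact ((ih α hα).2 α' h).subset fun j hj => ⟨hj.2.1, hj.2.2.symm⟩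
    have hex := exists_goodExt β coh h1 h2
    have hcongr : ∀ α < β, coh α = (fun α => if _ : α < β then coh α else fun _ => 0) α := by
      intro α hα
      simp [hα]
    have hex' : ∃ f, GoodExt β (fun α => if _ : α < β then coh α else fun _ => 0) f := by
      obtain ⟨f, hf⟩ := hex
      exact ⟨f, (goodExt_congr hcongr).1 hf⟩
    rw [goodExt_congr hcongr, coh_eq β, dif_pos hex']
    exact hex'.choose_spec

theorem coh_fin (β : W1) (k : ℕ) : {j | j < β ∧ coh β j ≤ k}.Finite := (coh_good β).1 k

theorem coh_coh {α β : W1} (h : α ≤ β) : {j | j < α ∧ coh α j ≠ coh β j}.Finite := by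
  rcases lt_or_eq_of_le h with h | h
  · exact (coh_good β).2 α h
  · subst h
    exact finite_empty.subset fun j hj => absurd rfl hj.2

end Pool.Agent.Helper42.Cp
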