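import Mathlib
import Pool.Agent.Helper39.Cp.W1

/-!
The two combinatorial principles used for the independence of the problem on compact images of
`C_p(K)`, `K` a compact linearly ordered space: diamond plus, and the failure of the weak Kurepa
hypothesis.
-/

set_option autoImplicit false

open Set Cardinal

namespace Pool.Agent.Helper42.Cp

open Pool.Agent.Helper39.Cp

/-- `C` is a closed unbounded subset of `ω₁`. -/
structure IsClub (C : Set W1) : Prop where
  /-- it is unbounded -/
  unbounded : ∀ i, ∃ j ∈ C, i < j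
  /-- it contains its limit points: a nonzero `δ` such that `C` is unbounded below `δ` is in `C` -/
  closed : ∀ δ : W1, (∃ j, j < δ) → (∀ j < δ, ∃ k ∈ C, j < k ∧ k < δ) → δ ∈ C

/-- The principle diamond plus: there are countable families `𝒜 α` of sets (`α < ω₁`) such that for
every `X ⊆ ω₁` there is a closed unbounded `C ⊆ ω₁` with `X ∩ α ∈ 𝒜 α` and `C ∩ α ∈ 𝒜 α` for all
`α ∈ C`. -/
def DiamondPlus : Prop :=
  ∃ 𝒜 : W1 → Set (Set W1), (∀ α, (𝒜 α).Countable) ∧
    ∀ X : Set W1, ∃ C : Set W1, IsClub C ∧ ∀ α ∈ C, X ∩ Iio α ∈ 𝒜 α ∧ C ∩ Iio α ∈ 𝒜 α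

/-- The failure of the weak Kurepa hypothesis: every family `ℱ` of subsets of `ω₁` such that for
each `α < ω₁` there are at most `ℵ₁` sets `F ∩ α` (`F ∈ ℱ`) has at most `ℵ₁` elements. -/
def NoWeakKurepa : Prop :=
  ∀ ℱ : Set (Set W1), (∀ α : W1, #((fun F : Set W1 => F ∩ Iio α) '' ℱ) ≤ Cardinal.aleph 1) →
    #ℱ ≤ Cardinal.aleph 1

end Pool.Agent.Helper42.Cp
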