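import Mathlib
import Pool.Agent.Helper39.Cp.Final
import Pool.Agent.Helper42.Cp.Defs
import Pool.Agent.Helper42.Cp.Coherent

/-!
Diamond plus implies the coding principle.
-/

set_option autoImplicit false

open Set Topology Filter

namespace Pool.Agent.Helper42.Cp

open Pool.Agent.Helper39.Cp

/-- A monotone map to a countable linear order gives a monotone real function whose values tell
(locally constantly) the values of the map. -/
lemma exists_monotone_discrete {L R : Type} [LinearOrder L] [LinearOrder R] [Countable R]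
    (r : L → R) (hr : Monotone r) : ∃ m : L → ℝ, Monotone m ∧
      ∀ z, ∃ U : Set ℝ, IsOpen U ∧ m z ∈ U ∧ ∀ z', m z' ∈ U → r z' = r z := by
  have hc : Countable (R ×ₗ Fin 3) := inferInstanceAs (Countable (R × Fin 3))
  obtain ⟨f⟩ := Order.embedding_from_countable_to_dense (R ×ₗ Fin 3) ℚ
  refine ⟨fun z => ((f (toLex (r z, 1)) : ℚ) : ℝ), ?_, fun z => ?_⟩
  · intro a b hab
    simp only [Rat.cast_le, OrderEmbedding.le_iff_le]
    rw [Prod.Lex.toLex_le_toLex]
    rcases lt_or_eq_of_le (hr hab) with h | h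
    · exact Or.inl h
    · exact Or.inr ⟨h, le_rfl⟩
  · refine ⟨Ioo ((f (toLex (r z, 0)) : ℚ) : ℝ) ((f (toLex (r z, 2)) : ℚ) : ℝ), isOpen_Ioo,
      ⟨?_, ?_⟩, fun z' hz' => ?_⟩
    · simp only [Rat.cast_lt, OrderEmbedding.lt_iff_lt]
      rw [Prod.Lex.toLex_lt_toLex]
      exact Or.inr ⟨rfl, by simp⟩
    · simp only [Rat.cast_lt, OrderEmbedding.lt_iff_lt]
      rw [Prod.Lex.toLex_lt_toLex]
      exact Or.inr ⟨rfl, by simp⟩
    · simp only [mem_Ioo, Rat.cast_lt, OrderEmbedding.lt_iff_lt] at hz'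
      obtain ⟨h1, h2⟩ := hz'
      rw [Prod.Lex.toLex_lt_toLex] at h1 h2
      rcases lt_trichotomy (r z') (r z) with h | h | h
      · rcases h1 with h1 | h1
        · exact absurd h1 (not_lt.2 h.le)
        · exact absurd h1.1 h.ne'
      · exact h
      · rcases h2 with h2 | h2
        · exact absurd h2 (not_lt.2 h.le)
        · exact absurd h2.1 h.ne'

/-- Functions which differ from a given one at finitely many points of a countable set. -/
lemma countable_finite_diff {ι : Type} [Countable ι] (b : ι → ℕ) :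
    {g : ι → ℕ | {j | g j ≠ b j}.Finite}.Countable := by
  classical
  have hsub : {g : ι → ℕ | {j | g j ≠ b j}.Finite} ⊆
      range (fun (p : Finset (ι × ℕ)) (j : ι) =>
        if h : ∃ n, (j, n) ∈ p then h.choose else b j) := by
    intro g hg
    refine ⟨hg.toFinset.image fun j => (j, g j), ?_⟩
    funext j
    dsimp only
    have hiff : ∀ n, (j, n) ∈ (hg.toFinset.image fun j => (j, g j)) → n = g j := by
      intro n hn
      simp only [Finset.mem_image, Prod.mk.injEq] at hn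
      obtain ⟨a, -, rfl, rfl⟩ := hn
      rfl
    split_ifs with h
    · exact hiff _ h.choose_spec
    · by_contra hne
      apply h
      refine ⟨g j, ?_⟩
      simp only [Finset.mem_image, Finite.mem_toFinset, mem_ofPred_eq, Prod.mk.injEq]
      exact ⟨j, fun h => hne h.symm, rfl, rfl⟩
  exact (countable_range _).mono hsub

open Classical in
/-- The least element of `C` above `i`. -/
noncomputable def nxtC (C : Set W1) (i : W1) : W1 :=
  if h : {j | j ∈ C ∧ i < j}.Nonempty then (wellFounded_lt (α := W1)).min _ h else i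

lemma nxtC_mem' {C : Set W1} {i : W1} (h : ∃ j ∈ C, i < j) : nxtC C i ∈ C ∧ i < nxtC C i := by
  have h : {j | j ∈ C ∧ i < j}.Nonempty := h
  unfold nxtC
  rw [dif_pos h]
  exact (wellFounded_lt (α := W1)).min_mem _ h

lemma nxtC_mem {C : Set W1} (hC : IsClub C) (i : W1) : nxtC C i ∈ C ∧ i < nxtC C i :=
  nxtC_mem' (hC.unbounded i)

lemma nxtC_le {C : Set W1} {i j : W1} (hj : j ∈ C) (hij : i < j) : nxtC C i ≤ j := by
  have h : {j | j ∈ C ∧ i < j}.Nonempty := Set.nonempty_of_mem (x := j) ⟨hj, hij⟩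
  unfold nxtC
  rw [dif_pos h]
  exact not_lt.1 ((wellFounded_lt (α := W1)).not_lt_min _
    (show j ∈ {j | j ∈ C ∧ i < j} from ⟨hj, hij⟩))

/-- Below a point of `C`, the next point is determined by the part of `C` below. -/
lemma nxtC_restrict {C : Set W1} {γ j : W1} (hγ : γ ∈ C) (hj : j < γ) :
    nxtC C j = nxtC (C ∩ Iio γ ∪ {γ}) j := by
  have h1 := nxtC_mem' ⟨γ, hγ, hj⟩
  have h2 : nxtC (C ∩ Iio γ ∪ {γ}) j ∈ C ∩ Iio γ ∪ {γ} ∧ j < nxtC (C ∩ Iio γ ∪ {γ}) j :=
    nxtC_mem' ⟨γ, Or.inr rfl, hj⟩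
  have h3 := nxtC_le hγ hj
  apply le_antisymm
  · refine nxtC_le ?_ h2.2
    rcases h2.1 with h | h
    · exact h.1
    · rw [show nxtC (C ∩ Iio γ ∪ {γ}) j = γ from h]
      exact hγ
  · refine nxtC_le ?_ h1.2
    rcases lt_or_eq_of_le h3 with h | h
    · exact Or.inl ⟨h1.1, h⟩
    · exact Or.inr h

lemma nxtC_eq_of_gap {C : Set W1} (hC : IsClub C) {i j : W1} (hji : j ≤ i)
    (h : ∀ k ∈ C, j < k → i < k) : nxtC C j = nxtC C i := by
  apply le_antisymm
  · exact nxtC_le (nxtC_mem hC i).1 (hji.trans_lt (nxtC_mem hC i).2)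
  · exact nxtC_le (nxtC_mem hC j).1 (h _ (nxtC_mem hC j).1 (nxtC_mem hC j).2)

/-- The last point of `C` which is `≤ i`. -/
lemma exists_last {C : Set W1} (hC : IsClub C) {i j : W1} (hj : j ∈ C) (hji : j ≤ i) :
    ∃ γ ∈ C, γ ≤ i ∧ ∀ k ∈ C, k ≤ i → k ≤ γ := by
  have hne : {g | ∀ k ∈ C, k ≤ i → k ≤ g}.Nonempty := Set.nonempty_of_mem (x := i) fun k _ hk => hk
  set γ := (wellFounded_lt (α := W1)).min _ hne with hγ
  have h1 : ∀ k ∈ C, k ≤ i → k ≤ γ := (wellFounded_lt (α := W1)).min_mem _ hne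
  have h2 : ∀ g < γ, ¬ ∀ k ∈ C, k ≤ i → k ≤ g := by
    intro g hg hall
    exact (wellFounded_lt (α := W1)).not_lt_min _
      (show g ∈ {g | ∀ k ∈ C, k ≤ i → k ≤ g} from hall) hg
  have h3 : γ ≤ i := by
    by_contra hcon
    exact h2 i (not_le.1 hcon) fun k _ hk => hk
  refine ⟨γ, ?_, h3, h1⟩
  by_contra hγC
  have hlt : ∀ k ∈ C, k ≤ i → k < γ := by
    intro k hk hki
    refine lt_of_le_of_ne (h1 k hk hki) ?_
    rintro rfl
    exact hγC hk
  apply hγC
  refine hC.closed γ ⟨j, hlt j hj hji⟩ fun g hg => ?_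
  have := h2 g hg
  push Not at this
  obtain ⟨k, hk, hki, hgk⟩ := this
  exact ⟨k, hk, hgk, hlt k hk hki⟩

open Classical in
/-- The branches coding `X`. -/
noncomputable def Zb (C X : Set W1) : ℕ → W1 → ℕ
  | 0, i => coh (nxtC C i) i
  | n + 1, i => if coh (nxtC C i) i = n ∧ i ∈ X then 1 else 0

open Classical in
lemma Zb_succ (C X : Set W1) (n : ℕ) (i : W1) :
    Zb C X (n + 1) i = if coh (nxtC C i) i = n ∧ i ∈ X then 1 else 0 := rfl

/-- The default values. -/
noncomputable def bs (i : W1) : ℕ → W1 → ℕ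
  | 0, j => coh (nxtC univ i) j
  | _ + 1, _ => 0

lemma Zb_congr {C C' X X' : Set W1} {n : ℕ} {i : W1} (h1 : nxtC C i = nxtC C' i)
    (h2 : i ∈ X ↔ i ∈ X') : Zb C X n i = Zb C' X' n i := by
  cases n with
  | zero => simp only [Zb, h1]
  | succ n =>
    have h3 : (coh (nxtC C i) i = n ∧ i ∈ X) ↔ (coh (nxtC C' i) i = n ∧ i ∈ X') := by
      rw [h1, h2]
    rw [Zb_succ, Zb_succ]
    by_cases h : coh (nxtC C i) i = n ∧ i ∈ X
    · rw [if_pos h, if_pos (h3.1 h)]
    · rw [if_neg h, if_neg (fun h' => h (h3.2 h'))]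

lemma diff_fin {C : Set W1} (hC : IsClub C) (X : Set W1) (n : ℕ) (i : W1) :
    {j | j ≤ i ∧ nxtC C j = nxtC C i ∧ Zb C X n j ≠ bs i n j}.Finite := by
  have hη := nxtC_mem hC i
  cases n with
  | zero =>
    have hle : nxtC univ i ≤ nxtC C i := nxtC_le (mem_univ _) hη.2
    refine (coh_coh hle).subset fun j hj => ?_
    obtain ⟨hji, h1, h2⟩ := hj
    simp only [Zb, bs, h1] at h2
    exact ⟨hji.trans_lt (nxtC_mem' ⟨nxtC C i, mem_univ _, hη.2⟩).2, fun h => h2 h.symm⟩
  | succ n =>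
    refine (coh_fin (nxtC C i) n).subset fun j hj => ?_
    obtain ⟨hji, h1, h2⟩ := hj
    simp only [Zb, bs, h1] at h2
    refine ⟨hji.trans_lt hη.2, ?_⟩
    by_contra hcon
    apply h2
    rw [if_neg]
    rintro ⟨h3, -⟩
    exact hcon (by rw [← h1]; exact h3.le)

/-- The set of all branches. -/
def Branches (𝒜 : W1 → Set (Set W1)) : Set (W1 → ℕ) :=
  {z | ∃ C X n, IsClub C ∧ (∀ α ∈ C, X ∩ Iio α ∈ 𝒜 α ∧ C ∩ Iio α ∈ 𝒜 α) ∧ z = Zb C X n}

open Classical in
/-- The base functions. -/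
noncomputable def base (i γ : W1) (A B : Set W1) (n : ℕ) (j : Iic i) : ℕ :=
  if (j : W1) < γ then Zb (A ∪ {γ}) B n j else bs i n j

theorem countable_restrict {𝒜 : W1 → Set (Set W1)} (h𝒜 : ∀ α, (𝒜 α).Countable) (i : W1) :
    ((fun (z : W1 → ℕ) (j : Iic i) => z j) '' Branches 𝒜).Countable := by
  have hcI : Countable (Iic i) := (countable_Iic i).to_subtype
  have hcount : (⋃ n : ℕ, ({g : Iic i → ℕ | {j | g j ≠ bs i n j}.Finite} ∪
      ⋃ γ ∈ Iic i, ⋃ A ∈ 𝒜 γ, ⋃ B ∈ 𝒜 γ,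
        {g : Iic i → ℕ | {j | g j ≠ base i γ A B n j}.Finite})).Countable := by
    apply countable_iUnion
    intro n
    apply Set.Countable.union
    · exact countable_finite_diff _
    · exact (countable_Iic i).biUnion fun γ _ => (h𝒜 γ).biUnion fun A _ =>
        (h𝒜 γ).biUnion fun B _ => countable_finite_diff _
  refine hcount.mono ?_
  rintro g ⟨z, ⟨C, X, n, hC, hguess, rfl⟩, rfl⟩
  refine mem_iUnion.2 ⟨n, ?_⟩
  by_cases hex : ∃ j ∈ C, j ≤ i
  · obtain ⟨j0, hj0, hj0i⟩ := hex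
    obtain ⟨γ, hγ, hγi, hlast⟩ := exists_last hC hj0 hj0i
    refine Or.inr ?_
    obtain ⟨hX, hCC⟩ := hguess γ hγ
    simp only [mem_iUnion]
    refine ⟨γ, hγi, C ∩ Iio γ, hCC, X ∩ Iio γ, hX, ?_⟩
    have hfin := (diff_fin hC X n i).preimage (Subtype.val_injective (p := (· ∈ Iic i))).injOn
    refine Set.Finite.subset hfin fun j hj => ?_
    have hj : Zb C X n j ≠ base i γ (C ∩ Iio γ) (X ∩ Iio γ) n j := hj
    unfold base at hj
    split_ifs at hj with hjγ
    · exfalso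
      apply hj
      apply Zb_congr (nxtC_restrict hγ hjγ)
      exact ⟨fun h => ⟨h, hjγ⟩, fun h => h.1⟩
    · refine ⟨j.2, nxtC_eq_of_gap hC j.2 fun k hk hjk => ?_, hj⟩
      by_contra hki
      exact hjγ (hjk.trans_le (hlast k hk (not_lt.1 hki)))
  · push Not at hex
    refine Or.inl ?_
    have hfin := (diff_fin hC X n i).preimage (Subtype.val_injective (p := (· ∈ Iic i))).injOn
    refine Set.Finite.subset hfin fun j hj => ?_
    exact ⟨j.2, nxtC_eq_of_gap hC j.2 fun k hk _ => hex k hk, hj⟩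

/-- The branches, in the lexicographic order. -/
abbrev LT' (𝒜 : W1 → Set (Set W1)) : Type := {z : Lex (W1 → ℕ) // ofLex z ∈ Branches 𝒜}

/-- The restrictions of the branches, in the lexicographic order. -/
abbrev RT (𝒜 : W1 → Set (Set W1)) (i : W1) : Type :=
  {z : Lex (Iic i → ℕ) // ofLex z ∈ (fun (z : W1 → ℕ) (j : Iic i) => z j) '' Branches 𝒜}

/-- The restriction of branches. -/
def restr (𝒜 : W1 → Set (Set W1)) (i : W1) (z : LT' 𝒜) : RT 𝒜 i :=
  ⟨toLex fun j : Iic i => ofLex z.1 j, ⟨ofLex z.1, z.2, rfl⟩⟩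

lemma restr_mono (𝒜 : W1 → Set (Set W1)) (i : W1) : Monotone (restr 𝒜 i) := by
  intro a b hab
  rcases lt_or_eq_of_le hab with h | h
  · obtain ⟨k, hk1, hk2⟩ := h
    change ∀ j < k, ofLex a.1 j = ofLex b.1 j at hk1
    change ofLex a.1 k < ofLex b.1 k at hk2
    by_cases hki : k ≤ i
    · apply le_of_lt
      refine ⟨⟨k, hki⟩, fun j hj => ?_, hk2⟩
      exact hk1 j hj
    · apply le_of_eq
      apply Subtype.ext
      change toLex (fun j : Iic i => ofLex a.1 j) = toLex (fun j : Iic i => ofLex b.1 j)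
      congr 1
      funext j
      exact hk1 j (j.2.trans_lt (not_le.1 hki))
  · subst h
    exact le_rfl

lemma restr_apply {𝒜 : W1 → Set (Set W1)} {i : W1} {z z' : LT' 𝒜}
    (h : restr 𝒜 i z = restr 𝒜 i z') : ofLex z.1 i = ofLex z'.1 i :=
  congrFun (congrArg (fun w : RT 𝒜 i => ofLex w.1) h) ⟨i, le_refl i⟩

theorem codingPrinciple_of_diamondPlus (h : DiamondPlus) : CodingPrinciple := by
  obtain ⟨𝒜, h𝒜, hguess⟩ := h
  have hcount : ∀ i, Countable (RT 𝒜 i) := by
    intro i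
    have := (countable_restrict h𝒜 i).to_subtype
    exact this
  choose m hm hU using fun i => exists_monotone_discrete (restr 𝒜 i) (restr_mono 𝒜 i)
  refine ⟨LT' 𝒜, inferInstance, m,
    fun i z => (ofLex (z (ofLex (z 0).1 i + 1)).1 i : ℝ), hm, fun i => ?_, fun y => ?_⟩
  · let _ : TopologicalSpace (ℕ → LT' 𝒜) :=
      TopologicalSpace.induced (fun (z : ℕ → LT' 𝒜) n => m i (z n)) inferInstance
    have hloc : ∀ n, IsLocallyConstant (fun z : ℕ → LT' 𝒜 => restr 𝒜 i (z n)) := by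
      intro n
      rw [IsLocallyConstant.iff_exists_open]
      intro z
      obtain ⟨U, hUo, hUz, hU'⟩ := hU i (z n)
      refine ⟨{w | m i (w n) ∈ U}, ?_, hUz, fun w hw => hU' _ hw⟩
      refine ⟨{v : ℕ → ℝ | v n ∈ U}, hUo.preimage (continuous_apply n), rfl⟩
    have hloc' : IsLocallyConstant
        (fun z : ℕ → LT' 𝒜 => (ofLex (z (ofLex (z 0).1 i + 1)).1 i : ℝ)) := by
      rw [IsLocallyConstant.iff_exists_open]
      intro z
      obtain ⟨U0, hU0, hz0, h0⟩ := (hloc 0).exists_open z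
      obtain ⟨U1, hU1, hz1, h1⟩ := (hloc (ofLex (z 0).1 i + 1)).exists_open z
      refine ⟨U0 ∩ U1, hU0.inter hU1, ⟨hz0, hz1⟩, fun w hw => ?_⟩
      have e0 := restr_apply (h0 w hw.1)
      have e1 := restr_apply (h1 w hw.2)
      rw [e0, e1]
    exact hloc'.continuous
  · obtain ⟨C, hC, hCg⟩ := hguess {i | y i = true}
    refine ⟨fun n => ⟨toLex (Zb C {i | y i = true} n), C, _, n, hC, hCg, rfl⟩, fun i => ?_⟩
    change ((Zb C {i | y i = true} (coh (nxtC C i) i + 1) i : ℕ) : ℝ) = _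
    rw [Zb_succ]
    by_cases hy : y i = true
    · rw [if_pos ⟨rfl, hy⟩, if_pos hy, Nat.cast_one]
    · rw [if_neg (fun h => hy h.2), if_neg hy, Nat.cast_zero]

end Pool.Agent.Helper42.Cp
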