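import Mathlib
import Pool.Agent.Helper39.Cp.Final
import Pool.Agent.Helper42.Cp.Defs

/-!
If the weak Kurepa hypothesis fails, then the coding principle fails.
-/

set_option autoImplicit false
set_option linter.unusedSectionVars false

open Set Topology Filter Cardinal

namespace Pool.Agent.Helper42.Cp

open Pool.Agent.Helper39.Cp

section Lemmas

variable {L : Type} [LinearOrder L] {m : W1 → L → ℝ}

/-- not distinguished by any of the functions -/
def EE (m : W1 → L → ℝ) (z z' : L) : Prop := ∀ i, m i z = m i z'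

/-- not distinguished by the functions up to `i` -/
def Ei (m : W1 → L → ℝ) (i : W1) (z z' : L) : Prop := ∀ j ≤ i, m j z = m j z'

/-- `z` is isolated at level `i` -/
def Iso (m : W1 → L → ℝ) (i : W1) (z : L) : Prop := ∀ z', Ei m i z z' → EE m z z'

lemma Iso.mono {i i' : W1} (h : i ≤ i') {z : L} (hz : Iso m i z) : Iso m i' z :=
  fun z' hz' => hz z' fun j hj => hz' j (hj.trans h)

/-- the rational `q` separates two members of the class of `z` -/
def Spl (m : W1 → L → ℝ) (i : W1) (z : L) : Set (W1 × ℚ) :=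
  {p | ∃ a a', Ei m i z a ∧ Ei m i z a' ∧ m p.1 a < p.2 ∧ (p.2 : ℝ) < m p.1 a'}

lemma Spl_congr {i : W1} {z z' : L} (h : Ei m i z z') : Spl m i z = Spl m i z' := by
  ext p
  constructor
  · rintro ⟨a, a', h1, h2, h3⟩
    exact ⟨a, a', fun j hj => (h j hj).symm.trans (h1 j hj),
      fun j hj => (h j hj).symm.trans (h2 j hj), h3⟩
  · rintro ⟨a, a', h1, h2, h3⟩
    exact ⟨a, a', fun j hj => (h j hj).trans (h1 j hj), fun j hj => (h j hj).trans (h2 j hj), h3⟩

lemma Spl_nonempty {i : W1} {z : L} (h : ¬ Iso m i z) : (Spl m i z).Nonempty := by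
  unfold Iso EE at h
  push Not at h
  obtain ⟨z', hz', j, hj⟩ := h
  have hz : Ei m i z z := fun _ _ => rfl
  rcases lt_or_gt_of_ne hj with h | h
  · obtain ⟨q, hq1, hq2⟩ := exists_rat_btwn h
    exact ⟨(j, q), z, z', hz, hz', hq1, hq2⟩
  · obtain ⟨q, hq1, hq2⟩ := exists_rat_btwn h
    exact ⟨(j, q), z', z, hz', hz, hq1, hq2⟩

lemma Ei_of_Spl (hm : ∀ i, Monotone (m i)) {i : W1} {z z' : L} {p : W1 × ℚ} (h : p ∈ Spl m i z)
    (h' : p ∈ Spl m i z') : Ei m i z z' := by
  obtain ⟨a, a', ha, ha', h1, h2⟩ := h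
  obtain ⟨b, b', hb, hb', h1', h2'⟩ := h'
  have hba : b < a' := (hm p.1).reflect_lt (h1'.trans h2)
  have hab : a < b' := (hm p.1).reflect_lt (h1.trans h2')
  intro k hk
  have e1 := hm k hba.le
  have e2 := hm k hab.le
  rw [← ha' k hk, ← hb k hk] at e1
  rw [← ha k hk, ← hb' k hk] at e2
  exact le_antisymm e2 e1

open Classical in
/-- choice of an element of a set -/
noncomputable def pick {α : Type} [Inhabited α] (s : Set α) : α :=
  if h : s.Nonempty then h.some else default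

lemma pick_mem {α : Type} [Inhabited α] {s : Set α} (h : s.Nonempty) : pick s ∈ s := by
  unfold pick
  rw [dif_pos h]
  exact h.some_mem

noncomputable instance : Inhabited W1 := ⟨Classical.arbitrary W1⟩

/-- the name of the class of `z` at level `i` -/
noncomputable def key (m : W1 → L → ℝ) (i : W1) (z : L) : W1 × ℚ := pick (Spl m i z)

lemma key_congr {i : W1} {z z' : L} (h : Ei m i z z') : key m i z = key m i z' := by
  unfold key
  rw [Spl_congr h]

lemma Ei_of_key (hm : ∀ i, Monotone (m i)) {i : W1} {z z' : L} (hz : ¬ Iso m i z)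
    (hz' : ¬ Iso m i z') (h : key m i z = key m i z') : Ei m i z z' := by
  have h1 : key m i z ∈ Spl m i z := pick_mem (Spl_nonempty hz)
  have h2 : key m i z' ∈ Spl m i z' := pick_mem (Spl_nonempty hz')
  rw [← h] at h2
  exact Ei_of_Spl hm h1 h2

lemma mk_W1_Q : #(W1 × ℚ) = Cardinal.aleph 1 := by
  rw [Cardinal.mk_prod, Cardinal.lift_id, Cardinal.lift_id, mk_W1,
    Cardinal.mul_eq_left (Cardinal.aleph0_le_aleph 1)]
  · exact (Cardinal.mk_le_aleph0).trans (Cardinal.aleph0_le_aleph 1)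
  · exact Cardinal.mk_ne_zero ℚ

lemma mk_triple : #(W1 × (W1 × ℚ)) = Cardinal.aleph 1 := by
  rw [Cardinal.mk_prod, Cardinal.lift_id, Cardinal.lift_id, mk_W1, mk_W1_Q,
    Cardinal.mul_eq_self (Cardinal.aleph0_le_aleph 1)]

/-- Under the hypothesis there are at most `ℵ₁` classes which are never isolated. -/
lemma exists_cover (hK : NoWeakKurepa) (hm : ∀ i, Monotone (m i)) [Nonempty L] :
    ∃ b : W1 → L, ∀ z, (∀ i, ¬ Iso m i z) → ∃ δ, EE m z (b δ) := by
  classical
  obtain ⟨e⟩ : Nonempty (W1 × (W1 × ℚ) ≃ W1) := by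
    rw [← Cardinal.eq, mk_triple, mk_W1]
  set B : Set L := {z | ∀ i, ¬ Iso m i z} with hB
  set F : L → Set W1 := fun z => range fun i => e (i, key m i z) with hF
  have hFinj : ∀ z ∈ B, ∀ z' ∈ B, F z = F z' → EE m z z' := by
    intro z hz z' hz' hzz i
    have : e (i, key m i z) ∈ F z' := by
      rw [← hzz]
      exact ⟨i, rfl⟩
    obtain ⟨i', hi'⟩ := this
    have h2 := e.injective hi'
    simp only [Prod.mk.injEq] at h2
    obtain ⟨rfl, h3⟩ := h2
    exact Ei_of_key hm (hz i') (hz' i') h3.symm i' le_rfl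
  have hfam := hK (F '' B) fun α => ?_
  swap
  · -- countably many levels matter
    have hc : {i | ∃ p, e (i, p) < α}.Countable := by
      have : {i | ∃ p, e (i, p) < α} ⊆ (fun x => (e.symm x).1) '' Iio α := by
        rintro i ⟨p, hp⟩
        exact ⟨e (i, p), hp, by simp⟩
      exact ((countable_Iio α).image _).mono this
    obtain ⟨i0, hi0⟩ := exists_upper_of_countable hc
    have hdet : ∀ z ∈ B, ∀ z' ∈ B, key m i0 z = key m i0 z' → F z ∩ Iio α = F z' ∩ Iio α := by
      have : ∀ z ∈ B, ∀ z' ∈ B, key m i0 z = key m i0 z' → F z ∩ Iio α ⊆ F z' ∩ Iio α := by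
        intro z hz z' hz' h x hx
        refine ⟨?_, hx.2⟩
        obtain ⟨⟨i, rfl⟩, hx2⟩ := hx
        have hlt : i < i0 := hi0 i ⟨_, hx2⟩
        have hE : Ei m i z z' := fun j hj =>
          Ei_of_key hm (hz i0) (hz' i0) h j (hj.trans hlt.le)
        exact ⟨i, by
          change e (i, key m i z') = e (i, key m i z)
          rw [key_congr hE]⟩
      intro z hz z' hz' h
      exact Subset.antisymm (this z hz z' hz' h) (this z' hz' z hz h.symm)
    let g : W1 × ℚ → Set W1 := fun p =>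
      if h : ∃ z ∈ B, key m i0 z = p then F h.choose ∩ Iio α else ∅
    have hsub : (fun F : Set W1 => F ∩ Iio α) '' (F '' B) ⊆ range g := by
      rintro _ ⟨_, ⟨z, hz, rfl⟩, rfl⟩
      refine ⟨key m i0 z, ?_⟩
      have hex : ∃ z' ∈ B, key m i0 z' = key m i0 z := ⟨z, hz, rfl⟩
      simp only [g, dif_pos hex]
      exact hdet _ hex.choose_spec.1 z hz hex.choose_spec.2
    calc #((fun F : Set W1 => F ∩ Iio α) '' (F '' B)) ≤ #(range g) := Cardinal.mk_le_mk_of_subset hsub
      _ ≤ #(W1 × ℚ) := Cardinal.mk_range_le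
      _ = Cardinal.aleph 1 := mk_W1_Q
  rcases B.eq_empty_or_nonempty with hBe | ⟨z0, hz0⟩
  · refine ⟨fun _ => Classical.arbitrary L, fun z hz => ?_⟩
    have : z ∈ B := hz
    rw [hBe] at this
    exact absurd this (notMem_empty z)
  · rw [← mk_W1] at hfam
    obtain ⟨f⟩ := (Cardinal.le_def _ _).1 hfam
    have hne : Nonempty (F '' B) := ⟨⟨F z0, z0, hz0, rfl⟩⟩
    have hsurj : Function.Surjective (Function.invFun f) := Function.invFun_surjective f.injective
    refine ⟨fun δ => (Function.invFun f δ).2.choose, fun z hz => ?_⟩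
    obtain ⟨δ, hδ⟩ := hsurj ⟨F z, z, hz, rfl⟩
    refine ⟨δ, ?_⟩
    have hsp := (Function.invFun f δ).2.choose_spec
    refine hFinj z hz _ hsp.1 ?_
    rw [hsp.2, hδ]

/-- jump on the right -/
def RJ (m : W1 → L → ℝ) (p : W1 × ℚ) (z : L) : Prop :=
  m p.1 z < p.2 ∧ ∀ z', z < z' → ¬ EE m z z' → (p.2 : ℝ) ≤ m p.1 z'

/-- jump on the left -/
def LJ (m : W1 → L → ℝ) (p : W1 × ℚ) (z : L) : Prop :=
  (p.2 : ℝ) < m p.1 z ∧ ∀ z', z' < z → ¬ EE m z z' → m p.1 z' ≤ p.2

/-- some function jumps at `z` -/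
def JJ (m : W1 → L → ℝ) (z : L) : Prop := ∃ p, RJ m p z ∨ LJ m p z

lemma EE.symm {z z' : L} (h : EE m z z') : EE m z' z := fun i => (h i).symm

lemma RJ_unique {p : W1 × ℚ} {z z' : L} (h : RJ m p z) (h' : RJ m p z') : EE m z z' := by
  by_contra hne
  rcases lt_trichotomy z z' with hlt | heq | hlt
  · exact absurd (h.2 z' hlt hne) (not_le.2 h'.1)
  · subst heq
    exact hne fun _ => rfl
  · exact absurd (h'.2 z hlt fun hh => hne hh.symm) (not_le.2 h.1)

lemma LJ_unique {p : W1 × ℚ} {z z' : L} (h : LJ m p z) (h' : LJ m p z') : EE m z z' := by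
  by_contra hne
  rcases lt_trichotomy z z' with hlt | heq | hlt
  · exact absurd (h'.2 z hlt fun hh => hne hh.symm) (not_le.2 h.1)
  · subst heq
    exact hne fun _ => rfl
  · exact absurd (h.2 z' hlt hne) (not_le.2 h'.1)

/-- There are at most `ℵ₁` classes at which some function jumps. -/
lemma exists_cover_jump [Nonempty L] : ∃ b : W1 → L, ∀ z, JJ m z → ∃ δ, EE m z (b δ) := by
  classical
  have hcard : #((W1 × ℚ) ⊕ (W1 × ℚ)) = Cardinal.aleph 1 := by
    rw [Cardinal.mk_sum, Cardinal.lift_id, mk_W1_Q,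
      Cardinal.add_eq_self (Cardinal.aleph0_le_aleph 1)]
  obtain ⟨e⟩ : Nonempty (W1 ≃ (W1 × ℚ) ⊕ (W1 × ℚ)) := by
    rw [← Cardinal.eq, hcard, mk_W1]
  refine ⟨fun δ => match e δ with
    | Sum.inl p => if h : ∃ z, RJ m p z then h.choose else Classical.arbitrary L
    | Sum.inr p => if h : ∃ z, LJ m p z then h.choose else Classical.arbitrary L, ?_⟩
  rintro z ⟨p, hp | hp⟩
  · refine ⟨e.symm (Sum.inl p), ?_⟩
    simp only [Equiv.apply_symm_apply]
    have hex : ∃ z, RJ m p z := ⟨z, hp⟩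
    rw [dif_pos hex]
    exact RJ_unique hp hex.choose_spec
  · refine ⟨e.symm (Sum.inr p), ?_⟩
    simp only [Equiv.apply_symm_apply]
    have hex : ∃ z, LJ m p z := ⟨z, hp⟩
    rw [dif_pos hex]
    exact LJ_unique hp hex.choose_spec

/-- At an isolated point without jumps all functions are continuous for the topology given by the
functions of level at most `i`. -/
lemma exists_nhd (hm : ∀ i, Monotone (m i)) {i : W1} {z : L} (hz : Iso m i z) (hJ : ¬ JJ m z)
    (j : W1) {ε : ℝ} (hε : 0 < ε) : ∃ k1 ≤ i, ∃ k2 ≤ i, ∃ r1 r2 : ℝ, m k1 z < r1 ∧ r2 < m k2 z ∧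
      ∀ w, m k1 w < r1 → r2 < m k2 w → |m j w - m j z| < ε := by
  unfold JJ at hJ
  push Not at hJ
  have key : ∀ z', ¬ EE m z z' → ∃ k ≤ i, m k z ≠ m k z' := by
    intro z' hz'
    by_contra hcon
    push Not at hcon
    exact hz' (hz z' hcon)
  obtain ⟨q, hq1, hq2⟩ := exists_rat_btwn (show m j z < m j z + ε by linarith)
  obtain ⟨q', hq1', hq2'⟩ := exists_rat_btwn (show m j z - ε < m j z by linarith)
  have h1 := (hJ (j, q)).1
  have h2 := (hJ (j, q')).2
  unfold RJ at h1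
  unfold LJ at h2
  push Not at h1 h2
  obtain ⟨a, ha1, ha2, ha3⟩ := h1 hq1
  obtain ⟨b, hb1, hb2, hb3⟩ := h2 hq2'
  dsimp only at ha3 hb3
  obtain ⟨k1, hk1, hka⟩ := key a ha2
  obtain ⟨k2, hk2, hkb⟩ := key b hb2
  have hk1' : m k1 z < m k1 a := lt_of_le_of_ne (hm k1 ha1.le) hka
  have hk2' : m k2 b < m k2 z := lt_of_le_of_ne (hm k2 hb1.le) (Ne.symm hkb)
  refine ⟨k1, hk1, k2, hk2, m k1 a, m k2 b, hk1', hk2', fun w hw1 hw2 => ?_⟩
  have e1 : w < a := (hm k1).reflect_lt hw1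
  have e2 : b < w := (hm k2).reflect_lt hw2
  have e3 := hm j e1.le
  have e4 := hm j e2.le
  rw [abs_lt]
  constructor
  · linarith
  · linarith

end Lemmas

section Diag

/-- Continuous functions on a second countable space indexed by `ω₁`. -/
lemma exists_block {P : Type} [TopologicalSpace P] [SecondCountableTopology P] (G : W1 → P → ℝ)
    (hG : ∀ j, Continuous (G j)) (β : W1) : ∃ (i : W1) (S : Set W1), β ≤ i ∧ S.Countable ∧
      (∀ j ∈ S, β ≤ j ∧ j ≠ i) ∧ ∀ p, G i p = 1 → ∃ j ∈ S, G j p ≠ 0 := by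
  classical
  let Bs := TopologicalSpace.countableBasis P
  have hBs : Bs.Countable := TopologicalSpace.countable_countableBasis P
  have hbas : TopologicalSpace.IsTopologicalBasis Bs := TopologicalSpace.isBasis_countableBasis P
  let K : W1 → Set (Set P) := fun i => {U | U ∈ Bs ∧ ∀ p ∈ U, 1 / 2 < G i p}
  let E : Set (Set P) := {U | U ∈ Bs ∧ {j | β ≤ j ∧ U ∈ K j}.Countable}
  have hbad : (⋃ U ∈ E, {j | β ≤ j ∧ U ∈ K j}).Countable :=
    (hBs.mono fun U hU => hU.1).biUnion fun U hU => hU.2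
  obtain ⟨i0, hi0⟩ := exists_upper_of_countable hbad
  obtain ⟨i, hi⟩ := exists_upper_of_countable (s := {i0, β}) (by simp)
  have hi0i : i0 < i := hi _ (by simp)
  have hβi : β < i := hi _ (by simp)
  have hKi : ∀ U ∈ K i, ∃ j, β ≤ j ∧ j ≠ i ∧ U ∈ K j := by
    intro U hU
    by_contra hcon
    push Not at hcon
    have hc : {j | β ≤ j ∧ U ∈ K j}.Countable := by
      refine (countable_singleton i).mono ?_
      rintro j ⟨hj1, hj2⟩
      by_contra hne
      exact hcon j hj1 hne hj2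
    have hUE : U ∈ E := ⟨hU.1, hc⟩
    have := hi0 i (mem_biUnion hUE ⟨hβi.le, hU⟩)
    exact absurd this (not_lt.2 hi0i.le)
  choose! f hf1 hf2 hf3 using hKi
  refine ⟨i, f '' K i, hβi.le, (hBs.mono fun U hU => hU.1).image f, ?_, fun p hp => ?_⟩
  · rintro _ ⟨U, hU, rfl⟩
    exact ⟨hf1 U hU, hf2 U hU⟩
  · have hopen : IsOpen {p | 1 / 2 < G i p} := isOpen_lt continuous_const (hG i)
    have hpm : p ∈ {p | 1 / 2 < G i p} := by
      change 1 / 2 < G i p
      rw [hp]
      norm_num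
    obtain ⟨U, hU, hpU, hUs⟩ := hbas.exists_subset_of_mem_open hpm hopen
    have hUK : U ∈ K i := ⟨hU, fun x hx => hUs hx⟩
    refine ⟨f U, ⟨U, hUK, rfl⟩, ?_⟩
    have := (hf3 U hUK).2 p hpU
    linarith

/-- The diagonal argument: `ω₁` many second countable spaces do not give all patterns. -/
lemma exists_missing {P : W1 → Type} [∀ δ, TopologicalSpace (P δ)]
    [∀ δ, SecondCountableTopology (P δ)] (G : ∀ δ, W1 → P δ → ℝ)
    (hG : ∀ δ j, Continuous (G δ j)) : ∃ y : W1 → Bool, ∀ δ (p : P δ),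
      ¬ ∀ j, G δ j p = if y j then 1 else 0 := by
  classical
  choose I S h1 h2 h3 h4 using fun δ β => exists_block (G δ) (hG δ) β
  -- the recursion
  have hup : ∀ (δ : W1) (f : ∀ δ', δ' < δ → W1), ∃ β, ∀ δ' (h : δ' < δ),
      I δ' (f δ' h) < β ∧ ∀ j ∈ S δ' (f δ' h), j < β := by
    intro δ f
    have hc : (⋃ x : Iio δ, insert (I x.1 (f x.1 x.2)) (S x.1 (f x.1 x.2))).Countable := by
      have : Countable (Iio δ) := (countable_Iio δ).to_subtype
      exact countable_iUnion fun x => (h2 _ _).insert _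
    obtain ⟨β, hβ⟩ := exists_upper_of_countable hc
    refine ⟨β, fun δ' h => ⟨hβ _ (mem_iUnion.2 ⟨⟨δ', h⟩, mem_insert _ _⟩), fun j hj =>
      hβ _ (mem_iUnion.2 ⟨⟨δ', h⟩, mem_insert_of_mem _ hj⟩)⟩⟩
  choose up hup1 using hup
  let b : W1 → W1 := (wellFounded_lt (α := W1)).fix up
  have hb : ∀ δ, b δ = up δ fun δ' _ => b δ' := by
    intro δ
    exact WellFounded.fix_eq _ _ _
  have hb1 : ∀ δ' δ, δ' < δ → I δ' (b δ') < b δ ∧ ∀ j ∈ S δ' (b δ'), j < b δ := by
    intro δ' δ h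
    rw [hb δ]
    exact hup1 δ (fun δ' _ => b δ') δ' h
  refine ⟨fun j => decide (∃ δ, j = I δ (b δ)), fun δ p hall => ?_⟩
  have hi := hall (I δ (b δ))
  rw [if_pos (by simp only [decide_eq_true_eq]; exact ⟨δ, rfl⟩)] at hi
  obtain ⟨j, hj, hjne⟩ := h4 δ (b δ) p hi
  have hj0 := hall j
  rw [if_neg] at hj0
  · exact hjne hj0
  · simp only [decide_eq_true_eq, not_exists]
    intro δ' hδ'
    rcases lt_trichotomy δ' δ with h | h | h
    · have e1 := (hb1 δ' δ h).1
      have e2 := (h3 δ (b δ) j hj).1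
      rw [hδ'] at e2
      exact absurd e1 (not_lt.2 e2)
    · subst h
      exact (h3 δ' (b δ') j hj).2 hδ'
    · have e1 := (hb1 δ δ' h).2 j hj
      have e2 := h1 δ' (b δ')
      rw [hδ'] at e1
      exact absurd e1 (not_lt.2 e2)

end Diag

section Main

variable {L : Type} [LinearOrder L]

/-- The parameters. -/
def Sl (m : W1 → L → ℝ) (δ : W1) : Type := {z : L // Iso m δ z ∧ ¬ JJ m z}

instance (m : W1 → L → ℝ) (δ : W1) : TopologicalSpace (Sl m δ) :=
  TopologicalSpace.induced (fun (z : Sl m δ) (k : Iic δ) => m k z.1) inferInstance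

/-- A discrete copy of the indices at most `δ`. -/
def Ds (δ : W1) : Type := Iic δ

instance (δ : W1) : TopologicalSpace (Ds δ) := ⊥

instance (δ : W1) : DiscreteTopology (Ds δ) := ⟨rfl⟩

instance (δ : W1) : Countable (Ds δ) := (countable_Iic δ).to_subtype

instance (m : W1 → L → ℝ) (δ : W1) : SecondCountableTopology (Sl m δ) := by
  have : Countable (Iic δ) := (countable_Iic δ).to_subtype
  exact TopologicalSpace.secondCountableTopology_induced _ _ _

/-- The value of a parameter. -/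
def vl (m : W1 → L → ℝ) (b : W1 → L) (δ : W1) : Sl m δ ⊕ Ds δ → L
  | Sum.inl z => z.1
  | Sum.inr d => b (show Iic δ from d).1

lemma continuous_low (m : W1 → L → ℝ) (δ k : W1) (hk : k ≤ δ) :
    Continuous fun z : Sl m δ => m k z.1 :=
  (continuous_apply (⟨k, hk⟩ : Iic δ)).comp
    (continuous_induced_dom (f := fun (z : Sl m δ) (k : Iic δ) => m k z.1))

lemma continuous_vl {m : W1 → L → ℝ} (hm : ∀ i, Monotone (m i)) (b : W1 → L) (δ j : W1) :
    Continuous fun x : Sl m δ ⊕ Ds δ => m j (vl m b δ x) := by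
  rw [continuous_sum_dom]
  refine ⟨?_, continuous_of_discreteTopology⟩
  change Continuous fun z : Sl m δ => m j z.1
  rw [continuous_iff_continuousAt]
  intro z
  refine Metric.tendsto_nhds.2 fun ε hε => ?_
  obtain ⟨k1, hk1, k2, hk2, r1, r2, h1, h2, h3⟩ := exists_nhd hm z.2.1 z.2.2 j hε
  have e1 : ∀ᶠ w in 𝓝 z, m k1 w.1 < r1 :=
    (continuous_low m δ k1 hk1).continuousAt.eventually (gt_mem_nhds h1)
  have e2 : ∀ᶠ w in 𝓝 z, r2 < m k2 w.1 :=
    (continuous_low m δ k2 hk2).continuousAt.eventually (lt_mem_nhds h2)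
  filter_upwards [e1, e2] with w hw1 hw2
  rw [Real.dist_eq]
  exact h3 w.1 hw1 hw2

theorem not_codingPrinciple_of_noWeakKurepa (hK : NoWeakKurepa) : ¬ CodingPrinciple := by
  classical
  rintro ⟨L, _, m, h, hm, hh, hpat⟩
  have hne : Nonempty L := by
    obtain ⟨z, -⟩ := hpat fun _ => false
    exact ⟨z 0⟩
  obtain ⟨b1, hb1⟩ := exists_cover hK hm
  obtain ⟨b2, hb2⟩ := exists_cover_jump (m := m)
  obtain ⟨e⟩ : Nonempty (W1 ≃ W1 ⊕ W1) := by
    rw [← Cardinal.eq, Cardinal.mk_sum, Cardinal.lift_id, mk_W1,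
      Cardinal.add_eq_self (Cardinal.aleph0_le_aleph 1)]
  let b : W1 → L := fun δ => Sum.elim b1 b2 (e δ)
  have hb : ∀ z, (∀ i, ¬ Iso m i z) ∨ JJ m z → ∃ δ, EE m z (b δ) := by
    rintro z (hz | hz)
    · obtain ⟨δ, hδ⟩ := hb1 z hz
      refine ⟨e.symm (Sum.inl δ), ?_⟩
      simpa [b] using hδ
    · obtain ⟨δ, hδ⟩ := hb2 z hz
      refine ⟨e.symm (Sum.inr δ), ?_⟩
      simpa [b] using hδ
  -- the functions on the spaces of parameters
  let G : ∀ δ : W1, W1 → (ℕ → Sl m δ ⊕ Ds δ) → ℝ := fun δ j p => h j fun n => vl m b δ (p n)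
  have hG : ∀ δ j, Continuous (G δ j) := by
    intro δ j
    let _ : TopologicalSpace (ℕ → L) :=
      TopologicalSpace.induced (fun (z : ℕ → L) n => m j (z n)) inferInstance
    have h1 : IsInducing (fun (z : ℕ → L) n => m j (z n)) := ⟨rfl⟩
    have h2 : Continuous fun (p : ℕ → Sl m δ ⊕ Ds δ) (n : ℕ) => vl m b δ (p n) := by
      rw [h1.continuous_iff]
      exact continuous_pi fun n => (continuous_vl hm b δ j).comp (continuous_apply n)
    exact (hh j).comp h2
  obtain ⟨y, hy⟩ := exists_missing G hG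
  obtain ⟨z, hz⟩ := hpat y
  -- a common index
  have hδ : ∀ n, ∃ δ, (Iso m δ (z n) ∧ ¬ JJ m (z n)) ∨ EE m (z n) (b δ) := by
    intro n
    by_cases hn : (∀ i, ¬ Iso m i (z n)) ∨ JJ m (z n)
    · obtain ⟨δ, hδ⟩ := hb _ hn
      exact ⟨δ, Or.inr hδ⟩
    · push Not at hn
      obtain ⟨⟨i, hi⟩, hJ⟩ := hn
      exact ⟨i, Or.inl ⟨hi, hJ⟩⟩
  choose d hd using hδ
  obtain ⟨δ, hδ⟩ := exists_upper_seq d
  have hx : ∀ n, ∃ x : Sl m δ ⊕ Ds δ, EE m (z n) (vl m b δ x) := by
    intro n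
    rcases hd n with h1 | h1
    · exact ⟨Sum.inl ⟨z n, h1.1.mono (hδ n).le, h1.2⟩, fun _ => rfl⟩
    · exact ⟨Sum.inr (⟨d n, (hδ n).le⟩ : Iic δ), h1⟩
  choose p hp using hx
  refine hy δ p fun j => ?_
  rw [← hz j]
  let _ : TopologicalSpace (ℕ → L) :=
    TopologicalSpace.induced (fun (z : ℕ → L) n => m j (z n)) inferInstance
  have h1 : IsInducing (fun (z : ℕ → L) n => m j (z n)) := ⟨rfl⟩
  have h2 : Inseparable (fun n => vl m b δ (p n)) z := by
    rw [← h1.inseparable_iff]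
    have : (fun n => m j (vl m b δ (p n))) = fun n => m j (z n) := by
      funext n
      exact (hp n j).symm
    change Inseparable (fun n => m j (vl m b δ (p n))) (fun n => m j (z n))
    rw [this]
  exact (h2.map (hh j)).eq

end Main

end Pool.Agent.Helper42.Cp
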